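import Mathlib

/-!
# The decomposition swindle
-/

set_option autoImplicit false

open Set Filter Topology

namespace Pool.Agent.Work.FreeIso

/-- `E` contains a complemented copy of its own `ℓ₁`-sum. -/
structure L1Self (E : Type*) [NormedAddCommGroup E] [NormedSpace ℝ E] where
  J : ℕ → E →L[ℝ] E
  Q : ℕ → E →L[ℝ] E
  C : ℝ
  C_nonneg : 0 ≤ C
  norm_J : ∀ k, ‖J k‖ ≤ C
  sum_Q : ∀ (v : E) (s : Finset ℕ), ∑ k ∈ s, ‖Q k v‖ ≤ C * ‖v‖
  QJ_same : ∀ k v, Q k (J k v) = v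
  QJ_ne : ∀ k l, k ≠ l → ∀ v, Q k (J l v) = 0

namespace L1Self

variable {E : Type*} [NormedAddCommGroup E] [NormedSpace ℝ E] [CompleteSpace E] (S : L1Self E)

/-- sequences of operators with summable orbits -/
def Good (A : ℕ → E →L[ℝ] E) (c : ℝ) : Prop :=
  ∀ (v : E) (s : Finset ℕ), ∑ k ∈ s, ‖A k v‖ ≤ c * ‖v‖

theorem Good.summable {A : ℕ → E →L[ℝ] E} {c : ℝ} (hA : Good A c) (v : E) :
    Summable (fun k => ‖A k v‖) :=
  summable_of_sum_le (fun _ => norm_nonneg _) (hA v)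

theorem Good.summableJ {A : ℕ → E →L[ℝ] E} {c : ℝ} (hA : Good A c) (v : E) :
    Summable (fun k => ‖S.J k (A k v)‖) := by
  refine Summable.of_nonneg_of_le (fun _ => norm_nonneg _) (fun k => ?_)
    ((hA.summable v).mul_left S.C)
  exact ((S.J k).le_opNorm _).trans (by have := S.norm_J k; gcongr)

/-- the operator `v ↦ ∑ J_k A_k v` -/
noncomputable def ser (A : ℕ → E →L[ℝ] E) (c : ℝ) (hA : Good A c) : E →L[ℝ] E :=
  LinearMap.mkContinuous
    { toFun := fun v => ∑' k, S.J k (A k v)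
      map_add' := fun v w => by
        rw [← (hA.summableJ S v).of_norm.tsum_add (hA.summableJ S w).of_norm]
        simp
      map_smul' := fun r v => by
        simp only [map_smul, RingHom.id_apply]
        rw [(hA.summableJ S v).of_norm.tsum_const_smul] }
    (S.C * c) (fun v => by
      simp only [LinearMap.coe_mk, AddHom.coe_mk]
      refine (norm_tsum_le_tsum_norm (hA.summableJ S v)).trans ?_
      have h1 : ∑' k, ‖S.J k (A k v)‖ ≤ ∑' k, S.C * ‖A k v‖ := by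
        refine (hA.summableJ S v).tsum_le_tsum (fun k => ?_) ((hA.summable v).mul_left S.C)
        exact ((S.J k).le_opNorm _).trans (by have := S.norm_J k; gcongr)
      refine h1.trans ?_
      rw [tsum_mul_left, mul_assoc]
      refine mul_le_mul_of_nonneg_left ?_ S.C_nonneg
      exact (hA.summable v).tsum_le_of_sum_le (hA v))

theorem ser_apply (A : ℕ → E →L[ℝ] E) (c : ℝ) (hA : Good A c) (v : E) :
    S.ser A c hA v = ∑' k, S.J k (A k v) := rfl

theorem Q_ser (A : ℕ → E →L[ℝ] E) (c : ℝ) (hA : Good A c) (v : E) (k : ℕ) :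
    S.Q k (S.ser A c hA v) = A k v := by
  rw [ser_apply, (S.Q k).map_tsum (hA.summableJ S v).of_norm, tsum_eq_single k]
  · exact S.QJ_same k _
  · intro l hl
    exact S.QJ_ne k l hl.symm _

section ops

variable {Y : Type*} [NormedAddCommGroup Y] [NormedSpace ℝ Y]
  (a : Y →L[ℝ] E) (b : E →L[ℝ] Y) (hba : ∀ y, b (a y) = y)

theorem good_D : Good (fun k => (a.comp b).comp (S.Q k)) (‖a.comp b‖ * S.C) := by
  intro v s
  calc ∑ k ∈ s, ‖((a.comp b).comp (S.Q k)) v‖ ≤ ∑ k ∈ s, ‖a.comp b‖ * ‖S.Q k v‖ :=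
        Finset.sum_le_sum (fun k _ => (a.comp b).le_opNorm _)
    _ = ‖a.comp b‖ * ∑ k ∈ s, ‖S.Q k v‖ := by rw [Finset.mul_sum]
    _ ≤ ‖a.comp b‖ * (S.C * ‖v‖) := by have := S.sum_Q v s; gcongr
    _ = ‖a.comp b‖ * S.C * ‖v‖ := by ring

theorem good_U : Good (fun k => (a.comp b).comp (S.Q (k + 1))) (‖a.comp b‖ * S.C) := by
  intro v s
  calc ∑ k ∈ s, ‖((a.comp b).comp (S.Q (k + 1))) v‖ ≤ ∑ k ∈ s, ‖a.comp b‖ * ‖S.Q (k + 1) v‖ :=
        Finset.sum_le_sum (fun k _ => (a.comp b).le_opNorm _)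
    _ = ‖a.comp b‖ * ∑ k ∈ s, ‖S.Q (k + 1) v‖ := by rw [Finset.mul_sum]
    _ = ‖a.comp b‖ * ∑ k ∈ s.map (addRightEmbedding 1), ‖S.Q k v‖ := by
        rw [Finset.sum_map]; rfl
    _ ≤ ‖a.comp b‖ * (S.C * ‖v‖) := by
        have := S.sum_Q v (s.map (addRightEmbedding 1)); gcongr
    _ = ‖a.comp b‖ * S.C * ‖v‖ := by ring

/-- the shifted family -/
noncomputable def shiftFam (k : ℕ) : E →L[ℝ] E :=
  match k with
  | 0 => 0
  | k + 1 => (a.comp b).comp (S.Q k)

theorem good_V : Good (S.shiftFam a b) (‖a.comp b‖ * S.C) := by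
  intro v s
  have h1 : ∀ k, ‖S.shiftFam a b k v‖ ≤ ‖a.comp b‖ * (if k = 0 then 0 else ‖S.Q (k - 1) v‖) := by
    intro k
    rcases k with _ | k
    · simp [shiftFam]
    · simp only [shiftFam, Nat.add_eq_zero_iff, one_ne_zero, and_false, if_false,
        Nat.add_sub_cancel]
      exact (a.comp b).le_opNorm _
  have h2 : ∑ k ∈ s, (if k = 0 then 0 else ‖S.Q (k - 1) v‖) ≤ S.C * ‖v‖ := by
    have h0 : ∑ k ∈ s, (if k = 0 then 0 else ‖S.Q (k - 1) v‖) =
        ∑ k ∈ s.filter (fun k => ¬ k = 0), ‖S.Q (k - 1) v‖ := by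
      rw [Finset.sum_filter]
      refine Finset.sum_congr rfl (fun k _ => ?_)
      by_cases h : k = 0 <;> simp [h]
    rw [h0]
    have h3 : ∑ k ∈ s.filter (fun k => ¬ k = 0), ‖S.Q (k - 1) v‖ =
        ∑ k ∈ (s.filter (fun k => ¬ k = 0)).image (fun k => k - 1), ‖S.Q k v‖ := by
      rw [Finset.sum_image]
      intro x hx y hy hxy
      simp only [Finset.coe_filter, mem_setOf_eq] at hx hy
      simp only at hxy
      omega
    rw [h3]
    exact S.sum_Q v _
  calc ∑ k ∈ s, ‖S.shiftFam a b k v‖ ≤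
        ∑ k ∈ s, ‖a.comp b‖ * (if k = 0 then 0 else ‖S.Q (k - 1) v‖) :=
        Finset.sum_le_sum (fun k _ => h1 k)
    _ = ‖a.comp b‖ * ∑ k ∈ s, (if k = 0 then 0 else ‖S.Q (k - 1) v‖) := by rw [Finset.mul_sum]
    _ ≤ ‖a.comp b‖ * (S.C * ‖v‖) := by gcongr
    _ = ‖a.comp b‖ * S.C * ‖v‖ := by ring

/-- diagonal operator -/
noncomputable def opD : E →L[ℝ] E := S.ser _ _ (S.good_D a b)
/-- left shift -/
noncomputable def opU : E →L[ℝ] E := S.ser _ _ (S.good_U a b)
/-- right shift -/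
noncomputable def opV : E →L[ℝ] E := S.ser _ _ (S.good_V a b)

theorem Q_D (k : ℕ) (v : E) : S.Q k (S.opD a b v) = a (b (S.Q k v)) := S.Q_ser _ _ _ v k
theorem Q_U (k : ℕ) (v : E) : S.Q k (S.opU a b v) = a (b (S.Q (k + 1) v)) := S.Q_ser _ _ _ v k
theorem Q_V_zero (v : E) : S.Q 0 (S.opV a b v) = 0 := S.Q_ser _ _ _ v 0
theorem Q_V_succ (k : ℕ) (v : E) : S.Q (k + 1) (S.opV a b v) = a (b (S.Q k v)) :=
  S.Q_ser _ _ _ v (k + 1)

theorem D_apply (v : E) : S.opD a b v = ∑' k, S.J k (a (b (S.Q k v))) := rfl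
theorem U_apply (v : E) : S.opU a b v = ∑' k, S.J k (a (b (S.Q (k + 1) v))) := rfl
theorem V_apply (v : E) : S.opV a b v = ∑' k, S.J k (S.shiftFam a b k v) := rfl

include hba

theorem DD (v : E) : S.opD a b (S.opD a b v) = S.opD a b v := by
  change ∑' k, S.J k (a (b (S.Q k (S.opD a b v)))) = ∑' k, S.J k (a (b (S.Q k v)))
  refine tsum_congr (fun k => ?_)
  rw [Q_D, hba]

theorem DU (v : E) : S.opD a b (S.opU a b v) = S.opU a b v := by
  change ∑' k, S.J k (a (b (S.Q k (S.opU a b v)))) = ∑' k, S.J k (a (b (S.Q (k + 1) v)))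
  refine tsum_congr (fun k => ?_)
  rw [Q_U, hba]

theorem UD (v : E) : S.opU a b (S.opD a b v) = S.opU a b v := by
  change ∑' k, S.J k (a (b (S.Q (k + 1) (S.opD a b v)))) = ∑' k, S.J k (a (b (S.Q (k + 1) v)))
  refine tsum_congr (fun k => ?_)
  rw [Q_D, hba]

theorem DV (v : E) : S.opD a b (S.opV a b v) = S.opV a b v := by
  change ∑' k, S.J k (a (b (S.Q k (S.opV a b v)))) = ∑' k, S.J k (S.shiftFam a b k v)
  refine tsum_congr (fun k => ?_)
  rcases k with _ | k
  · rw [Q_V_zero]; simp [shiftFam]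
  · rw [Q_V_succ, hba]; simp [shiftFam]

theorem VD (v : E) : S.opV a b (S.opD a b v) = S.opV a b v := by
  change ∑' k, S.J k (S.shiftFam a b k (S.opD a b v)) = ∑' k, S.J k (S.shiftFam a b k v)
  refine tsum_congr (fun k => ?_)
  rcases k with _ | k
  · simp [shiftFam]
  · simp [shiftFam, Q_D, hba]

theorem UV (v : E) : S.opU a b (S.opV a b v) = S.opD a b v := by
  change ∑' k, S.J k (a (b (S.Q (k + 1) (S.opV a b v)))) = ∑' k, S.J k (a (b (S.Q k v)))
  refine tsum_congr (fun k => ?_)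
  rw [Q_V_succ, hba]

theorem VU (v : E) : S.opV a b (S.opU a b v) = S.opD a b v - S.J 0 (a (b (S.Q 0 v))) := by
  have hs : Summable (fun k => S.J k (a (b (S.Q k v)))) :=
    ((S.good_D a b).summableJ S v).of_norm
  have hs' : Summable (fun k => S.J k (S.shiftFam a b k (S.opU a b v))) :=
    ((S.good_V a b).summableJ S (S.opU a b v)).of_norm
  rw [V_apply S a b (S.opU a b v), D_apply S a b v, hs.tsum_eq_zero_add, hs'.tsum_eq_zero_add]
  simp [shiftFam, Q_U, hba]

omit hba in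
theorem D_J (v : E) : S.opD a b (S.J 0 v) = S.J 0 (a (b v)) := by
  rw [D_apply, tsum_eq_single 0]
  · rw [S.QJ_same]
  · intro k hk
    rw [S.QJ_ne k 0 hk]
    simp

omit hba in
theorem U_J (v : E) : S.opU a b (S.J 0 v) = 0 := by
  rw [U_apply]
  have : ∀ k, S.J k (a (b (S.Q (k + 1) (S.J 0 v)))) = 0 := by
    intro k
    rw [S.QJ_ne (k + 1) 0 (by omega)]
    simp
  simp [this]

/-- **Swindle**: `E ≃ Y × E` for every complemented subspace `Y` of `E`. -/
noncomputable def swindle : E ≃L[ℝ] Y × E :=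
  ContinuousLinearEquiv.equivOfInverse
    ((b.comp (S.Q 0)).prod (ContinuousLinearMap.id ℝ E - S.opD a b + S.opU a b))
    (((S.J 0).comp a).comp (ContinuousLinearMap.fst ℝ Y E) +
      (ContinuousLinearMap.id ℝ E - S.opD a b + S.opV a b).comp (ContinuousLinearMap.snd ℝ Y E))
    (by
      intro v
      change S.J 0 (a (b (S.Q 0 v))) + ((v - S.opD a b v + S.opU a b v) -
          S.opD a b (v - S.opD a b v + S.opU a b v) +
          S.opV a b (v - S.opD a b v + S.opU a b v)) = v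
      simp only [map_add, map_sub]
      rw [S.DD a b hba, S.DU a b hba, S.VD a b hba, S.VU a b hba]
      abel)
    (by
      rintro ⟨y, v⟩
      have hw : (((S.J 0).comp a).comp (ContinuousLinearMap.fst ℝ Y E) +
          (ContinuousLinearMap.id ℝ E - S.opD a b + S.opV a b).comp
            (ContinuousLinearMap.snd ℝ Y E)) (y, v) =
          S.J 0 (a y) + (v - S.opD a b v + S.opV a b v) := rfl
      rw [hw]
      refine Prod.ext ?_ ?_
      · change b (S.Q 0 (S.J 0 (a y) + (v - S.opD a b v + S.opV a b v))) = y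
        simp only [map_add, map_sub]
        rw [S.QJ_same, hba, Q_D, hba, Q_V_zero, map_zero]
        abel
      · change (S.J 0 (a y) + (v - S.opD a b v + S.opV a b v)) -
          S.opD a b (S.J 0 (a y) + (v - S.opD a b v + S.opV a b v)) +
          S.opU a b (S.J 0 (a y) + (v - S.opD a b v + S.opV a b v)) = v
        simp only [map_add, map_sub]
        rw [S.DD a b hba, S.UD a b hba, S.DV a b hba, S.UV a b hba, D_J, U_J, hba]
        abel)

end ops

/-- **Pelczynski decomposition**. -/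
theorem nonempty_equiv {Y : Type*} [NormedAddCommGroup Y] [NormedSpace ℝ Y] [CompleteSpace Y]
    (a : Y →L[ℝ] E) (b : E →L[ℝ] Y) (hba : ∀ y, b (a y) = y)
    (a' : E →L[ℝ] Y) (b' : Y →L[ℝ] E) (hba' : ∀ x, b' (a' x) = x) (S : L1Self E) :
    Nonempty (E ≃L[ℝ] Y) := by
  let e1 : E ≃L[ℝ] Y × E := S.swindle a b hba
  let e2 : E ≃L[ℝ] E × E := S.swindle (ContinuousLinearMap.id ℝ E) (ContinuousLinearMap.id ℝ E)
    (fun _ => rfl)
  let Z := LinearMap.ker (b' : Y →ₗ[ℝ] E)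
  let e3 : Y ≃L[ℝ] E × LinearMap.ker (b' : Y →ₗ[ℝ] E) :=
    ContinuousLinearEquiv.equivOfRightInverse b' a' hba'
  let e4 : Y ≃L[ℝ] E × Y :=
    e3.trans (((e2.prodCongr (ContinuousLinearEquiv.refl ℝ _)).trans
      (ContinuousLinearEquiv.prodAssoc ℝ E E _)).trans
      ((ContinuousLinearEquiv.refl ℝ E).prodCongr e3.symm))
  exact ⟨e1.trans ((ContinuousLinearEquiv.prodComm ℝ Y E).trans e4.symm)⟩

end L1Self

end Pool.Agent.Work.FreeIso
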