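import Pool.Agent.Work.FreeIso.Free
import Pool.Agent.Work.FreeIso.Swindle

/-!
# `F(c₀)` contains a complemented copy of its `ℓ₁`-sum; final theorem
-/

set_option autoImplicit false

open Set Filter Topology

namespace Pool.Agent.Work.FreeIso

lemma c0_norm_le {f : c0} {C : ℝ} (hC : 0 ≤ C) (h : ∀ n, |f n| ≤ C) : ‖f‖ ≤ C := by
  rw [← dist_zero_right]
  refine c0_dist_le hC (fun n => ?_)
  simpa using h n

lemma c0_abs_le (f : c0) (n : ℕ) : |f n| ≤ ‖f‖ := by
  rw [← dist_zero_right]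
  simpa using c0_dist_coe_le f 0 n

/-- skip `k` -/
def sk (k n : ℕ) : ℕ := if n < k then n else n + 1
/-- left inverse of `sk k` -/
def uk (k m : ℕ) : ℕ := if m < k then m else m - 1

lemma uk_sk (k n : ℕ) : uk k (sk k n) = n := by
  unfold uk sk
  split_ifs <;> omega

lemma sk_ne (k n : ℕ) : sk k n ≠ k := by
  unfold sk
  split_ifs <;> omega

lemma sk_uk (k m : ℕ) (h : m ≠ k) : sk k (uk k m) = m := by
  unfold uk sk
  split_ifs <;> omega

lemma tendsto_sk (k : ℕ) : Tendsto (sk k) atTop atTop := by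
  refine tendsto_atTop_mono (fun n => ?_) tendsto_id
  unfold sk
  simp only [id]
  split_ifs <;> omega

lemma tendsto_uk (k : ℕ) : Tendsto (uk k) atTop atTop := by
  refine tendsto_atTop_mono (fun n => ?_) (tendsto_sub_atTop_nat 1)
  unfold uk
  split_ifs <;> omega

/-- remove the coordinate `k` -/
noncomputable def rem (k : ℕ) (x : c0) : c0 :=
  c0mk (fun n => x (sk k n)) ((c0_tendsto x).comp (tendsto_sk k))

lemma rem_apply (k : ℕ) (x : c0) (n : ℕ) : rem k x n = x (sk k n) := rfl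

lemma rem_lip (k : ℕ) (x y : c0) : dist (rem k x) (rem k y) ≤ dist x y :=
  c0_dist_le dist_nonneg (fun n => c0_dist_coe_le x y (sk k n))

lemma abs_le_norm_rem (k m : ℕ) (h : m ≠ k) (x : c0) : |x m| ≤ ‖rem k x‖ := by
  have := c0_abs_le (rem k x) (uk k m)
  rwa [rem_apply, sk_uk k m h] at this

/-- the gap function -/
noncomputable def tt (k : ℕ) (x : c0) : ℝ := max 0 (x k - ‖rem k x‖)

lemma tt_nonneg (k : ℕ) (x : c0) : 0 ≤ tt k x := le_max_left _ _

lemma tt_lip (k : ℕ) (x y : c0) : |tt k x - tt k y| ≤ 2 * dist x y := by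
  have h1 := abs_max_sub_max_le_max 0 (x k - ‖rem k x‖) 0 (y k - ‖rem k y‖)
  have h2 := c0_dist_coe_le x y k
  have h3 := rem_lip k x y
  have h4 : |‖rem k x‖ - ‖rem k y‖| ≤ dist (rem k x) (rem k y) := by
    rw [dist_eq_norm]
    exact abs_norm_sub_norm_le _ _
  rw [Real.dist_eq] at h2
  refine h1.trans ?_
  rw [sub_self, abs_zero, max_eq_right (abs_nonneg _)]
  have h5 : x k - ‖rem k x‖ - (y k - ‖rem k y‖) = (x k - y k) - (‖rem k x‖ - ‖rem k y‖) := by ring
  rw [h5]
  have h6 := abs_sub (x k - y k) (‖rem k x‖ - ‖rem k y‖)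
  linarith

lemma tt_disjoint (k l : ℕ) (h : k ≠ l) (x : c0) (hk : 0 < tt k x) : tt l x = 0 := by
  unfold tt at hk ⊢
  have h1 : 0 < x k - ‖rem k x‖ := by
    rcases max_choice 0 (x k - ‖rem k x‖) with h | h
    · rw [h] at hk; exact absurd hk (lt_irrefl _)
    · rwa [h] at hk
  have h2 := abs_le_norm_rem k l h.symm x
  have h3 := abs_le_norm_rem l k h x
  have h4 := le_abs_self (x k)
  have h5 := le_abs_self (x l)
  apply max_eq_left
  linarith

/-- truncation -/
noncomputable def cl (a t : ℝ) : ℝ := max (-t) (min t a)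

lemma cl_lip (a t a' t' : ℝ) : |cl a t - cl a' t'| ≤ max |a - a'| |t - t'| := by
  unfold cl
  refine (abs_max_sub_max_le_max _ _ _ _).trans (max_le ?_ ?_)
  · rw [show -t - -t' = -(t - t') by ring, abs_neg]
    exact le_max_right _ _
  · refine (abs_min_sub_min_le_max _ _ _ _).trans (max_le (le_max_right _ _) (le_max_left _ _))

lemma cl_zero (a : ℝ) : cl a 0 = 0 := by
  unfold cl
  rw [neg_zero]
  exact max_eq_left (min_le_left _ _)

lemma cl_of_abs_le {a t : ℝ} (h : |a| ≤ t) : cl a t = a := by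
  unfold cl
  have := abs_le.1 h
  rw [min_eq_right this.2, max_eq_right this.1]

lemma abs_cl_le {a t : ℝ} (ht : 0 ≤ t) : |cl a t| ≤ |a| := by
  have h := cl_lip a t 0 t
  have h0 : cl 0 t = 0 := cl_of_abs_le (by simpa using ht)
  rw [h0, sub_zero, sub_zero, sub_self, abs_zero] at h
  exact h.trans (max_le le_rfl (abs_nonneg _))

/-- the maps `q_k` -/
noncomputable def qm (k : ℕ) (x : c0) : c0 :=
  c0mk (fun n => cl (rem k x n) (tt k x)) (by
    refine squeeze_zero_norm (fun n => ?_) (by simpa using (c0_tendsto (rem k x)).abs)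
    exact abs_cl_le (tt_nonneg k x))

lemma qm_apply (k : ℕ) (x : c0) (n : ℕ) : qm k x n = cl (rem k x n) (tt k x) := rfl

lemma qm_lip (k : ℕ) (x y : c0) : dist (qm k x) (qm k y) ≤ 2 * dist x y := by
  refine c0_dist_le (by positivity) (fun n => ?_)
  rw [qm_apply, qm_apply, Real.dist_eq]
  refine (cl_lip _ _ _ _).trans (max_le ?_ (tt_lip k x y))
  have h1 := c0_dist_coe_le (rem k x) (rem k y) n
  have h2 := rem_lip k x y
  rw [Real.dist_eq] at h1
  have h3 : 0 ≤ dist x y := dist_nonneg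
  linarith

lemma qm_eq_zero (k : ℕ) (x : c0) (h : tt k x = 0) : qm k x = 0 := by
  apply c0_ext
  intro n
  rw [qm_apply, h, cl_zero]
  rfl

/-- the maps `j_k` -/
noncomputable def jm (k : ℕ) (y : c0) : c0 :=
  c0mk (fun m => if m = k then 2 * ‖y‖ else y (uk k m)) (by
    refine ((c0_tendsto y).comp (tendsto_uk k)).congr' ?_
    filter_upwards [eventually_gt_atTop k] with m hm
    rw [if_neg (by omega)]
    rfl)

lemma jm_apply (k : ℕ) (y : c0) (m : ℕ) :
    jm k y m = if m = k then 2 * ‖y‖ else y (uk k m) := rfl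

lemma jm_lip (k : ℕ) (x y : c0) : dist (jm k x) (jm k y) ≤ 2 * dist x y := by
  refine c0_dist_le (by positivity) (fun n => ?_)
  rw [jm_apply, jm_apply]
  split_ifs with h
  · rw [Real.dist_eq, ← mul_sub, abs_mul, abs_of_pos (by norm_num : (0:ℝ) < 2), dist_eq_norm]
    have := abs_norm_sub_norm_le x y
    linarith
  · have h1 := c0_dist_coe_le x y (uk k n)
    have h3 : 0 ≤ dist x y := dist_nonneg
    linarith

lemma rem_jm (k : ℕ) (y : c0) : rem k (jm k y) = y := by
  apply c0_ext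
  intro n
  rw [rem_apply, jm_apply, if_neg (sk_ne k n), uk_sk]

lemma qm_jm (k : ℕ) (y : c0) : qm k (jm k y) = y := by
  have ht : tt k (jm k y) = ‖y‖ := by
    unfold tt
    rw [rem_jm, jm_apply, if_pos rfl]
    rw [show 2 * ‖y‖ - ‖y‖ = ‖y‖ by ring]
    exact max_eq_right (norm_nonneg _)
  apply c0_ext
  intro n
  rw [qm_apply, ht, rem_jm]
  exact cl_of_abs_le (c0_abs_le y n)

lemma qm_jm_ne (k l : ℕ) (h : k ≠ l) (y : c0) : qm k (jm l y) = 0 := by
  apply qm_eq_zero
  unfold tt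
  apply max_eq_left
  have h1 := abs_le_norm_rem k l h.symm (jm l y)
  rw [jm_apply l y l, if_pos rfl, abs_of_nonneg (by positivity)] at h1
  have h2 : jm l y k ≤ ‖y‖ := by
    rw [jm_apply, if_neg h]
    exact (le_abs_self _).trans (c0_abs_le y _)
  have := norm_nonneg y
  linarith

lemma sum_qm (s : Finset ℕ) (x y : c0) : ∑ k ∈ s, dist (qm k x) (qm k y) ≤ 4 * dist x y := by
  classical
  have hone : ∀ (w : c0) (s : Finset ℕ), ∑ k ∈ s, (if 0 < tt k w then 2 * dist x y else 0) ≤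
      2 * dist x y := by
    intro w s
    rw [← Finset.sum_filter]
    have hcard : (s.filter (fun k => 0 < tt k w)).card ≤ 1 := by
      rw [Finset.card_le_one]
      intro a ha b hb
      by_contra hab
      have h1 := tt_disjoint a b hab w (Finset.mem_filter.1 ha).2
      have h2 := (Finset.mem_filter.1 hb).2
      rw [h1] at h2
      exact lt_irrefl _ h2
    rw [Finset.sum_const, nsmul_eq_mul]
    have h1 : (((s.filter (fun k => 0 < tt k w)).card : ℕ) : ℝ) ≤ 1 := by exact_mod_cast hcard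
    have h2 : 0 ≤ 2 * dist x y := by positivity
    nlinarith
  have hterm : ∀ k, dist (qm k x) (qm k y) ≤ (if 0 < tt k x then 2 * dist x y else 0) +
      (if 0 < tt k y then 2 * dist x y else 0) := by
    intro k
    have h0 : 0 ≤ dist x y := dist_nonneg
    have h1 := qm_lip k x y
    by_cases hx : 0 < tt k x
    · rw [if_pos hx]
      split_ifs <;> linarith
    · by_cases hy : 0 < tt k y
      · rw [if_pos hy, if_neg hx]
        linarith
      · have hx' : tt k x = 0 := le_antisymm (not_lt.1 hx) (tt_nonneg k x)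
        have hy' : tt k y = 0 := le_antisymm (not_lt.1 hy) (tt_nonneg k y)
        rw [qm_eq_zero k x hx', qm_eq_zero k y hy', dist_self, if_neg hx, if_neg hy]
        simp
  calc ∑ k ∈ s, dist (qm k x) (qm k y) ≤ ∑ k ∈ s, ((if 0 < tt k x then 2 * dist x y else 0) +
      (if 0 < tt k y then 2 * dist x y else 0)) := Finset.sum_le_sum (fun k _ => hterm k)
    _ ≤ 4 * dist x y := by
      rw [Finset.sum_add_distrib]
      have h1 := hone x s
      have h2 := hone y s
      linarith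

lemma tt_zero (k : ℕ) : tt k 0 = 0 := by
  unfold tt
  apply max_eq_left
  have : (0 : c0) k = 0 := rfl
  rw [this]
  have := norm_nonneg (rem k 0)
  linarith

lemma qm_zero (k : ℕ) : qm k 0 = 0 := qm_eq_zero k 0 (tt_zero k)

lemma jm_zero (k : ℕ) : jm k 0 = 0 := by
  apply c0_ext
  intro n
  rw [jm_apply]
  split_ifs
  · rw [norm_zero, mul_zero]; rfl
  · rfl

/-- The free space over `c₀` contains a complemented copy of its `ℓ₁`-sum. -/
theorem exists_l1self {E : Type*} [NormedAddCommGroup E] [NormedSpace ℝ E] [CompleteSpace E]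
    {δ : c0 → E} (H : IsFree 0 δ) : Nonempty (L1Self E) := by
  classical
  have hJ : ∀ k, ∃ T : E →L[ℝ] E, ‖T‖ ≤ (2:NNReal) ∧ ∀ x, T (δ x) = δ (jm k x) := by
    intro k
    refine H.exists_lift (fun x => δ (jm k x)) 2 ?_ (by rw [jm_zero, H.zero])
    refine LipschitzWith.of_dist_le_mul (fun x y => ?_)
    refine (H.lip.dist_le_mul _ _).trans ?_
    rw [NNReal.coe_one, one_mul]
    exact_mod_cast jm_lip k x y
  have hQ : ∀ k, ∃ T : E →L[ℝ] E, ‖T‖ ≤ (2:NNReal) ∧ ∀ x, T (δ x) = δ (qm k x) := by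
    intro k
    refine H.exists_lift (fun x => δ (qm k x)) 2 ?_ (by rw [qm_zero, H.zero])
    refine LipschitzWith.of_dist_le_mul (fun x y => ?_)
    refine (H.lip.dist_le_mul _ _).trans ?_
    rw [NNReal.coe_one, one_mul]
    exact_mod_cast qm_lip k x y
  choose J hJ1 hJ2 using hJ
  choose Q hQ1 hQ2 using hQ
  refine ⟨{ J := J, Q := Q, C := 4, C_nonneg := by norm_num, norm_J := ?_, sum_Q := ?_,
            QJ_same := ?_, QJ_ne := ?_ }⟩
  · intro k
    refine (hJ1 k).trans ?_
    norm_num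
  · intro v s
    -- choose norming functionals
    have hφ : ∀ k, ∃ φ : StrongDual ℝ E, ‖φ‖ ≤ 1 ∧ φ (Q k v) = ‖Q k v‖ := fun k =>
      exists_dual_vector'' ℝ (Q k v)
    choose φ hφ1 hφ2 using hφ
    let Φ : E →L[ℝ] ℝ := ∑ k ∈ s, (φ k).comp (Q k)
    have hΦδ : ∀ x, Φ (δ x) = ∑ k ∈ s, φ k (δ (qm k x)) := by
      intro x
      simp only [Φ, ContinuousLinearMap.coe_sum', Finset.sum_apply,
        ContinuousLinearMap.comp_apply, hQ2]
    have hlip : LipschitzWith 4 (fun x => Φ (δ x)) := by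
      refine LipschitzWith.of_dist_le_mul (fun x y => ?_)
      rw [hΦδ, hΦδ, Real.dist_eq, ← Finset.sum_sub_distrib]
      refine (Finset.abs_sum_le_sum_abs _ _).trans ?_
      refine le_trans (Finset.sum_le_sum (fun k _ => ?_)) (by exact_mod_cast sum_qm s x y)
      rw [← map_sub]
      calc |φ k (δ (qm k x) - δ (qm k y))| ≤ ‖φ k‖ * ‖δ (qm k x) - δ (qm k y)‖ := (φ k).le_opNorm _
        _ ≤ 1 * ‖δ (qm k x) - δ (qm k y)‖ := by have := hφ1 k; gcongr
        _ = dist (δ (qm k x)) (δ (qm k y)) := by rw [one_mul, dist_eq_norm]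
        _ ≤ dist (qm k x) (qm k y) := by
          have := H.lip.dist_le_mul (qm k x) (qm k y)
          rwa [NNReal.coe_one, one_mul] at this
    obtain ⟨ψ, hψ1, hψ2⟩ := H.ext 4 _ hlip (by rw [H.zero, map_zero])
    have hEq : ψ = Φ := H.hom_ext (fun x => hψ2 x)
    have h1 : Φ v = ∑ k ∈ s, ‖Q k v‖ := by
      simp only [Φ, ContinuousLinearMap.coe_sum', Finset.sum_apply,
        ContinuousLinearMap.comp_apply, hφ2]
    rw [← h1, ← hEq]
    calc ψ v ≤ ‖ψ v‖ := le_abs_self _
      _ ≤ ‖ψ‖ * ‖v‖ := ψ.le_opNorm _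
      _ ≤ 4 * ‖v‖ := by
        have : ‖ψ‖ ≤ 4 := by exact_mod_cast hψ1
        gcongr
  · intro k v
    have h : (Q k).comp (J k) = ContinuousLinearMap.id ℝ E := by
      apply H.hom_ext
      intro x
      rw [ContinuousLinearMap.comp_apply, hJ2, hQ2, qm_jm]
      rfl
    exact congrArg (fun T : E →L[ℝ] E => T v) h
  · intro k l hkl v
    have h : (Q k).comp (J l) = 0 := by
      apply H.hom_ext
      intro x
      rw [ContinuousLinearMap.comp_apply, hJ2, hQ2, qm_jm_ne k l hkl, H.zero]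
      rfl
    exact congrArg (fun T : E →L[ℝ] E => T v) h

/-- **Main theorem**: `F(c₀)` is isomorphic to the Holmes space `F(U)`. -/
theorem main (U : Type) [MetricSpace U] [CompleteSpace U] [TopologicalSpace.SeparableSpace U]
    (huniv : ∀ (X : Type) [MetricSpace X] [TopologicalSpace.SeparableSpace X],
        ∃ f : X → U, Isometry f)
    (hhom : ∀ (s : Set U), s.Finite → ∀ g : s → U, Isometry g →
        ∃ h : U ≃ᵢ U, ∀ x : s, h (x : U) = g x)
    (u₀ : U) {E F : Type*} [NormedAddCommGroup E] [NormedSpace ℝ E] [CompleteSpace E]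
    [NormedAddCommGroup F] [NormedSpace ℝ F] [CompleteSpace F]
    {δ₁ : c0 → E} {δ₂ : U → F} (H₁ : IsFree 0 δ₁) (H₂ : IsFree u₀ δ₂) :
    Nonempty (E ≃L[ℝ] F) := by
  haveI : TopologicalSpace.SeparableSpace c0 := separable_c0
  haveI : Nonempty U := ⟨u₀⟩
  -- `c₀` is a Lipschitz retract of `U`
  obtain ⟨i, hi⟩ := huniv c0
  obtain ⟨r, hr, hri⟩ := exists_retraction fbip_c0 i (fun x y => (hi.dist_eq x y).ge)
  obtain ⟨a', b', hab'⟩ := exists_complemented H₁ H₂ i r hi.lipschitz hr hri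
  -- `U` is a Lipschitz retract of `c₀`
  obtain ⟨j, hj1, hj2⟩ := exists_c0_embedding U
  obtain ⟨ρ, hρ, hρj⟩ := exists_retraction (fbip_urysohn U huniv hhom) j hj1
  obtain ⟨a, b, hab⟩ := exists_complemented H₂ H₁ j ρ hj2 hρ hρj
  obtain ⟨S⟩ := exists_l1self H₁
  exact L1Self.nonempty_equiv a b hab a' b' hab' S

end Pool.Agent.Work.FreeIso
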