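import Pool.Agent.Work.FreeIso.Fbip

/-!
# Every separable metric space embeds bi-Lipschitzly into `c₀`
-/

set_option autoImplicit false

open Set Filter Topology

namespace Pool.Agent.Work.FreeIso

section core

variable {M : Type*} [MetricSpace M] (q : ℕ → M) (s : ℝ)

/-- pieces of the weight -/
noncomputable def hs (n i : ℕ) (x : M) : ℝ :=
  if i = n then 2 * s - dist x (q n) else dist x (q i) - s / 2

/-- the weight -/
noncomputable def ws (n : ℕ) (x : M) : ℝ :=
  (Finset.range (n + 1)).inf' (by simp) (fun i => hs q s n i x)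

theorem ws_le (n : ℕ) (x y : M) : ws q s n x ≤ ws q s n y + dist x y := by
  obtain ⟨i, hi, hi'⟩ := Finset.exists_mem_eq_inf' (s := Finset.range (n + 1)) (by simp)
    (fun i => hs q s n i y)
  have h1 : ws q s n x ≤ hs q s n i x := Finset.inf'_le _ hi
  have h2 : ws q s n y = hs q s n i y := hi'
  rw [h2]
  refine h1.trans ?_
  unfold hs
  split_ifs with h
  · have := dist_triangle y x (q n)
    rw [dist_comm y x] at this
    linarith
  · have := dist_triangle x y (q i)
    linarith

theorem ws_le_self (n : ℕ) (x : M) : ws q s n x ≤ 2 * s - dist x (q n) := by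
  have h1 : ws q s n x ≤ hs q s n n x := Finset.inf'_le _ (by simp)
  simpa [hs] using h1

theorem ws_le_lt (n i : ℕ) (hi : i < n) (x : M) : ws q s n x ≤ dist x (q i) - s / 2 := by
  have h1 : ws q s n x ≤ hs q s n i x := Finset.inf'_le _ (by simp; omega)
  have : i ≠ n := hi.ne
  simpa [hs, this] using h1

theorem le_ws (n : ℕ) (x : M) (c : ℝ) (h1 : c ≤ 2 * s - dist x (q n))
    (h2 : ∀ i < n, c ≤ dist x (q i) - s / 2) : c ≤ ws q s n x := by
  unfold ws
  rw [Finset.le_inf'_iff]
  intro i hi
  unfold hs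
  split_ifs with h
  · exact h1
  · exact h2 i (by have := Finset.mem_range.1 hi; omega)

theorem exists_core_s (hq : DenseRange q) (hs0 : 0 < s) (x : M) : ∃ n, s / 2 ≤ ws q s n x := by
  classical
  have hex : ∃ n, dist x (q n) < s := hq.exists_dist_lt x hs0
  refine ⟨Nat.find hex, le_ws q s _ x _ ?_ ?_⟩
  · have := Nat.find_spec hex
    linarith
  · intro i hi
    have := Nat.find_min hex hi
    push Not at this
    linarith

theorem exists_bound_s (hq : DenseRange q) (hs0 : 0 < s) (x : M) :
    ∃ N, ∀ n, 0 < ws q s n x → n ≤ N := by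
  obtain ⟨N, hN⟩ := hq.exists_dist_lt x (show 0 < s / 2 by positivity)
  refine ⟨N, fun n hn => ?_⟩
  by_contra hlt
  push Not at hlt
  have := ws_le_lt q s n N hlt x
  linarith

/-- the coordinate functions -/
noncomputable def co (o : M) (a : ℕ × ℤ) (x : M) : ℝ :=
  max 0 (min (ws q ((2:ℝ) ^ a.2) a.1 x) (dist x o - (2:ℝ) ^ a.2))

theorem co_nonneg (o : M) (a : ℕ × ℤ) (x : M) : 0 ≤ co q o a x := le_max_left _ _

theorem co_lip (o : M) (a : ℕ × ℤ) (x y : M) : |co q o a x - co q o a y| ≤ dist x y := by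
  have key : ∀ x y, co q o a x ≤ co q o a y + dist x y := by
    intro x y
    unfold co
    refine max_le (by have := co_nonneg q o a y; unfold co at this; positivity) ?_
    have h1 := ws_le q ((2:ℝ) ^ a.2) a.1 x y
    have h2 := dist_triangle x y o
    have h3 : min (ws q ((2:ℝ) ^ a.2) a.1 x) (dist x o - (2:ℝ) ^ a.2) ≤
        min (ws q ((2:ℝ) ^ a.2) a.1 y) (dist y o - (2:ℝ) ^ a.2) + dist x y := by
      rcases min_choice (ws q ((2:ℝ) ^ a.2) a.1 y) (dist y o - (2:ℝ) ^ a.2) with h | h
      · rw [h]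
        exact (min_le_left _ _).trans h1
      · rw [h]
        refine (min_le_right _ _).trans ?_
        linarith
    exact h3.trans (by gcongr; exact le_max_right _ _)
  rw [abs_le]
  have h1 := key x y
  have h2 := key y x
  rw [dist_comm y x] at h2
  constructor <;> linarith

theorem co_tendsto (hq : DenseRange q) (o x : M) :
    Tendsto (fun a => co q o a x) cofinite (𝓝 0) := by
  rw [Metric.tendsto_nhds]
  intro ε hε
  rw [Filter.eventually_cofinite]
  obtain ⟨m₁, hm₁⟩ := exists_pow_lt_of_lt_one (show (0:ℝ) < ε / 2 by positivity)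
    (show (1/2 : ℝ) < 1 by norm_num)
  obtain ⟨m₂, hm₂⟩ := pow_unbounded_of_one_lt (dist x o) (show (1:ℝ) < 2 by norm_num)
  have hN : ∀ k : ℤ, ∃ N, ∀ n, 0 < ws q ((2:ℝ) ^ k) n x → n ≤ N := fun k =>
    exists_bound_s q _ hq (by positivity) x
  choose N hN using hN
  have hsub : {a : ℕ × ℤ | ¬ dist (co q o a x) 0 < ε} ⊆
      ⋃ k ∈ Set.Icc (-(m₁:ℤ)) (m₂:ℤ), ((fun n => (n, k)) '' (Set.Iic (N k))) := by
    intro a ha
    simp only [mem_setOf_eq, Real.dist_eq, sub_zero, abs_of_nonneg (co_nonneg q o a x)] at ha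
    push Not at ha
    have hpos : 0 < co q o a x := lt_of_lt_of_le hε ha
    have hmin : co q o a x = min (ws q ((2:ℝ) ^ a.2) a.1 x) (dist x o - (2:ℝ) ^ a.2) := by
      unfold co at hpos ⊢
      rcases max_choice 0 (min (ws q ((2:ℝ) ^ a.2) a.1 x) (dist x o - (2:ℝ) ^ a.2)) with h | h
      · rw [h] at hpos
        exact absurd hpos (lt_irrefl _)
      · exact h
    have h1 : co q o a x ≤ ws q ((2:ℝ) ^ a.2) a.1 x := by rw [hmin]; exact min_le_left _ _
    have h2 : co q o a x ≤ dist x o - (2:ℝ) ^ a.2 := by rw [hmin]; exact min_le_right _ _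
    have h3 := ws_le_self q ((2:ℝ) ^ a.2) a.1 x
    have h4 : (0:ℝ) ≤ dist x (q a.1) := dist_nonneg
    refine mem_iUnion₂.2 ⟨a.2, ⟨?_, ?_⟩, ⟨a.1, hN a.2 a.1 (by linarith), rfl⟩⟩
    · by_contra hlt
      push Not at hlt
      have h6 : (2:ℝ) ^ a.2 ≤ (2:ℝ) ^ (-(m₁:ℤ)) := zpow_le_zpow_right₀ (by norm_num) hlt.le
      rw [zpow_neg, zpow_natCast] at h6
      rw [one_div, inv_pow] at hm₁
      linarith
    · by_contra hlt
      push Not at hlt
      have h6 : (2:ℝ) ^ (m₂:ℤ) ≤ (2:ℝ) ^ a.2 := zpow_le_zpow_right₀ (by norm_num) hlt.le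
      rw [zpow_natCast] at h6
      linarith
  refine Set.Finite.subset ?_ hsub
  refine Set.Finite.biUnion (Set.finite_Icc _ _) (fun k _ => ?_)
  exact (Set.finite_Iic _).image _

end core

/-- **Aharoni's theorem** (with a non-optimal constant). -/
theorem exists_c0_embedding (M : Type*) [MetricSpace M] [TopologicalSpace.SeparableSpace M]
    [Nonempty M] :
    ∃ j : M → c0, (∀ x y, dist x y ≤ dist (j x) (j y)) ∧ LipschitzWith 16 j := by
  classical
  let q : ℕ → M := TopologicalSpace.denseSeq M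
  have hq : DenseRange q := TopologicalSpace.denseRange_denseSeq M
  let o : M := q 0
  let g : ℕ ≃ ℕ × ℤ := (Denumerable.eqv (ℕ × ℤ)).symm
  have ht : ∀ x, Tendsto (fun m => 16 * co q o (g m) x) atTop (𝓝 0) := by
    intro x
    have h1 := (co_tendsto q hq o x).comp g.injective.tendsto_cofinite
    rw [Nat.cofinite_eq_atTop] at h1
    simpa using h1.const_mul 16
  refine ⟨fun x => c0mk _ (ht x), ?_, ?_⟩
  · intro x y
    -- symmetric key estimate
    have key : ∀ x y : M, dist x y ≤ 2 * dist x o → dist x y ≤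
        dist (c0mk _ (ht x)) (c0mk _ (ht y)) := by
      intro x y hxy
      by_cases hD : dist x y = 0
      · rw [hD]; exact dist_nonneg
      have hD' : 0 < dist x y := lt_of_le_of_ne dist_nonneg (Ne.symm hD)
      obtain ⟨k, hk1, hk2⟩ := exists_mem_Ico_zpow (show 0 < dist x y / 4 by positivity)
        (show (1:ℝ) < 2 by norm_num)
      rw [zpow_add_one₀ (by norm_num)] at hk2
      have hs0 : (0:ℝ) < (2:ℝ) ^ k := by positivity
      obtain ⟨n, hn⟩ := exists_core_s q ((2:ℝ) ^ k) hq hs0 x
      have hy : ws q ((2:ℝ) ^ k) n y ≤ 0 := by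
        have h1 := ws_le_self q ((2:ℝ) ^ k) n x
        have h2 := ws_le_self q ((2:ℝ) ^ k) n y
        have h3 := dist_triangle_right x y (q n)
        linarith
      have hcx : (2:ℝ) ^ k / 2 ≤ co q o (n, k) x := by
        unfold co
        refine le_trans (le_min hn ?_) (le_max_right _ _)
        simp only
        linarith
      have hcy : co q o (n, k) y = 0 := by
        unfold co
        refine max_eq_left ?_
        exact (min_le_left _ _).trans hy
      have h1 := c0_dist_coe_le (c0mk _ (ht x)) (c0mk _ (ht y)) (g.symm (n, k))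
      rw [c0mk_apply, c0mk_apply, Equiv.apply_symm_apply, hcy, mul_zero, Real.dist_eq, sub_zero,
        abs_of_nonneg (by have := co_nonneg q o (n, k) x; positivity)] at h1
      linarith
    by_cases h : dist x y ≤ 2 * dist x o
    · exact key x y h
    · push Not at h
      have h1 := dist_triangle_right x y o
      have h2 := key y x (by rw [dist_comm y x]; linarith)
      rwa [dist_comm y x, dist_comm (c0mk _ (ht y))] at h2
  · refine LipschitzWith.of_dist_le_mul (fun x y => ?_)
    refine c0_dist_le (by positivity) (fun m => ?_)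
    rw [c0mk_apply, c0mk_apply, Real.dist_eq, ← mul_sub, abs_mul]
    have := co_lip q o (g m) x y
    push_cast
    rw [abs_of_pos (by norm_num : (0:ℝ) < 16)]
    linarith

end Pool.Agent.Work.FreeIso
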