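import Mathlib

/-!
# Lipschitz retractions onto separable spaces with the finite ball intersection property
-/

set_option autoImplicit false

open Set Metric

namespace Pool.Agent.Work.FreeIso

/-- Finite ball intersection property. -/
def FBIP (Y : Type*) [MetricSpace Y] : Prop :=
  ∀ (s : Finset (Y × ℝ)), s.Nonempty → (∀ p ∈ s, 0 ≤ p.2) →
    (∀ p ∈ s, ∀ q ∈ s, dist p.1 q.1 ≤ p.2 + q.2) →
    ∃ z : Y, ∀ p ∈ s, dist z p.1 ≤ p.2

/-- A sequence obtained by strong recursion with choice. -/
theorem exists_seq_strong {Y : Type*} [Nonempty Y] (Good : ℕ → (ℕ → Y) → Y → Prop)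
    (hdep : ∀ k (G G' : ℕ → Y) y, (∀ i < k, G i = G' i) → Good k G y → Good k G' y)
    (hstep : ∀ k (G : ℕ → Y), (∀ i < k, Good i G (G i)) → ∃ y, Good k G y) :
    ∃ G : ℕ → Y, ∀ k, Good k G (G k) := by
  classical
  let arb : Y := Classical.arbitrary Y
  let F : (k : ℕ) → ((i : ℕ) → i < k → Y) → Y := fun k ih =>
    Classical.epsilon (fun y => Good k (fun i => if h : i < k then ih i h else arb) y)
  let G : ℕ → Y := fun k => (Nat.lt_wfRel.wf).fix F k
  have hG : ∀ k, G k = Classical.epsilon
      (fun y => Good k (fun i => if i < k then G i else arb) y) := by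
    intro k
    have := (Nat.lt_wfRel.wf).fix_eq F k
    simp only [G]
    rw [this]
    rfl
  refine ⟨G, ?_⟩
  intro k
  induction k using Nat.strong_induction_on with
  | _ k ih =>
    have hex : ∃ y, Good k (fun i => if i < k then G i else arb) y := by
      obtain ⟨y, hy⟩ := hstep k G ih
      exact ⟨y, hdep k _ _ y (fun i hi => by simp [hi]) hy⟩
    have h1 := Classical.epsilon_spec hex
    rw [← hG k] at h1
    exact hdep k _ _ _ (fun i hi => by simp [hi]) h1

/-- Extension of Lipschitz maps from dense subsets. -/
theorem exists_extend_of_dense {T M Y : Type*} [MetricSpace M] [MetricSpace Y] [CompleteSpace Y]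
    (e : T → M) (he : DenseRange e) (f : T → Y) (L : NNReal)
    (h : ∀ t t', dist (f t) (f t') ≤ L * dist (e t) (e t')) :
    ∃ F : M → Y, LipschitzWith L F ∧ ∀ t, F (e t) = f t := by
  letI : PseudoMetricSpace T := PseudoMetricSpace.induced e inferInstance
  have hiso : Isometry e := fun x y => rfl
  have hf : LipschitzWith L f := LipschitzWith.of_dist_le_mul (fun x y => h x y)
  have hui := hiso.isUniformInducing
  have hdi := hui.isDenseInducing he
  refine ⟨hdi.extend f, ?_, ?_⟩
  · have huc : UniformContinuous (hdi.extend f) :=
      uniformContinuous_uniformly_extend hui he hf.uniformContinuous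
    apply LipschitzWith.of_dist_le_mul
    have hval : ∀ t, hdi.extend f (e t) = f t := fun t =>
      uniformly_extend_of_ind hui he hf.uniformContinuous t
    refine isClosed_property2 (p := fun x y => dist (hdi.extend f x) (hdi.extend f y) ≤ L * dist x y)
      he ?_ ?_
    · apply isClosed_le
      · exact (huc.continuous.comp continuous_fst).dist (huc.continuous.comp continuous_snd)
      · exact continuous_const.mul continuous_dist
    · intro a b
      rw [hval, hval]
      exact h a b
  · intro t
    exact uniformly_extend_of_ind hui he hf.uniformContinuous t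

section core

variable {M : Type*} [MetricSpace M] (A : Set M) (p : ℕ → M)

/-- scale -/
noncomputable def sc (n : ℕ) : ℝ := infDist (p n) A / 8

/-- pieces of the weight -/
noncomputable def hh (n i : ℕ) (x : M) : ℝ :=
  if i = n then 2 * sc A p n - dist x (p n) else dist x (p i) - sc A p i / 2

/-- the weight -/
noncomputable def om (n : ℕ) (x : M) : ℝ :=
  (Finset.range (n + 1)).inf' (by simp) (fun i => hh A p n i x)

theorem om_le (n : ℕ) (x y : M) : om A p n x ≤ om A p n y + dist x y := by
  obtain ⟨i, hi, hi'⟩ := Finset.exists_mem_eq_inf' (s := Finset.range (n + 1)) (by simp)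
    (fun i => hh A p n i y)
  have h1 : om A p n x ≤ hh A p n i x := Finset.inf'_le _ hi
  have h2 : om A p n y = hh A p n i y := hi'
  rw [h2]
  refine h1.trans ?_
  unfold hh
  split_ifs with h
  · have := dist_triangle_left y (p n) x
    have := dist_triangle y x (p n)
    rw [dist_comm y x] at this
    linarith
  · have := dist_triangle x y (p i)
    linarith

theorem om_le_self (n : ℕ) (x : M) : om A p n x ≤ 2 * sc A p n - dist x (p n) := by
  have h1 : om A p n x ≤ hh A p n n x := Finset.inf'_le _ (by simp)
  simpa [hh] using h1

theorem om_le_lt (n i : ℕ) (hi : i < n) (x : M) : om A p n x ≤ dist x (p i) - sc A p i / 2 := by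
  have h1 : om A p n x ≤ hh A p n i x := Finset.inf'_le _ (by simp; omega)
  have : i ≠ n := hi.ne
  simpa [hh, this] using h1

theorem le_om (n : ℕ) (x : M) (c : ℝ) (h1 : c ≤ 2 * sc A p n - dist x (p n))
    (h2 : ∀ i < n, c ≤ dist x (p i) - sc A p i / 2) : c ≤ om A p n x := by
  unfold om
  rw [Finset.le_inf'_iff]
  intro i hi
  unfold hh
  split_ifs with h
  · exact h1
  · exact h2 i (by have := Finset.mem_range.1 hi; omega)

variable (hd : ∀ x, 0 < infDist x A → ∀ ε > 0, ∃ n, dist x (p n) < ε)

include hd in
theorem exists_core (x : M) (hx : 0 < infDist x A) : ∃ n, infDist x A / 18 ≤ om A p n x := by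
  classical
  have hex : ∃ n, dist x (p n) < sc A p n := by
    obtain ⟨n, hn⟩ := hd x hx (infDist x A / 9) (by positivity)
    refine ⟨n, ?_⟩
    have h1 : infDist x A ≤ infDist (p n) A + dist x (p n) := infDist_le_infDist_add_dist
    unfold sc
    linarith
  let n := Nat.find hex
  have hn : dist x (p n) < sc A p n := Nat.find_spec hex
  refine ⟨n, le_om A p n x _ ?_ ?_⟩
  · have h1 : infDist x A ≤ infDist (p n) A + dist x (p n) := infDist_le_infDist_add_dist
    unfold sc at hn ⊢
    linarith
  · intro i hi
    have h2 : ¬ dist x (p i) < sc A p i := Nat.find_min hex hi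
    have h1 : infDist x A ≤ infDist (p i) A + dist x (p i) := infDist_le_infDist_add_dist
    unfold sc at h2 ⊢
    push Not at h2
    linarith

include hd in
theorem exists_bound (x : M) (hx : 0 < infDist x A) : ∃ N, ∀ n, 0 < om A p n x → n ≤ N := by
  have hex : ∃ n, dist x (p n) < sc A p n / 2 := by
    obtain ⟨n, hn⟩ := hd x hx (infDist x A / 17) (by positivity)
    refine ⟨n, ?_⟩
    have h1 : infDist x A ≤ infDist (p n) A + dist x (p n) := infDist_le_infDist_add_dist
    unfold sc
    linarith
  obtain ⟨N, hN⟩ := hex
  refine ⟨N, fun n hn => ?_⟩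
  by_contra hlt
  push Not at hlt
  have := om_le_lt A p n N hlt x
  linarith

end core

/-- Main theorem: a complete metric space with the finite ball intersection property is a
Lipschitz retract of every separable metric space in which it is (expandingly) embedded. -/
theorem exists_retraction {M Y : Type*} [MetricSpace M] [TopologicalSpace.SeparableSpace M]
    [MetricSpace Y] [CompleteSpace Y] [Nonempty Y] (hY : FBIP Y) (j : Y → M)
    (hj : ∀ x y, dist x y ≤ dist (j x) (j y)) :
    ∃ r : M → Y, LipschitzWith 147 r ∧ ∀ y, r (j y) = y := by
  classical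
  set A : Set M := range j with hA
  have hAne : A.Nonempty := range_nonempty j
  by_cases hO : ∃ x : M, 0 < infDist x A
  swap
  · -- `A` is dense
    push Not at hO
    have hdense : DenseRange j := by
      intro x
      rw [Metric.mem_closure_iff_infDist_zero hAne]
      exact le_antisymm (hO x) infDist_nonneg
    obtain ⟨F, hF, hF'⟩ := exists_extend_of_dense j hdense (id : Y → Y) 147 (by
      intro t t'
      have h1 := hj t t'
      have h2 : (0:ℝ) ≤ dist (j t) (j t') := dist_nonneg
      simp only [id]
      push_cast
      linarith)
    exact ⟨F, hF, hF'⟩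
  · haveI : SecondCountableTopology M := UniformSpace.secondCountable_of_separable M
    set O : Set M := {x | 0 < infDist x A} with hOdef
    haveI : Nonempty O := by
      obtain ⟨x, hx⟩ := hO
      exact ⟨⟨x, hx⟩⟩
    let p : ℕ → M := fun n => (TopologicalSpace.denseSeq O n : M)
    have hp : ∀ n, 0 < infDist (p n) A := fun n => (TopologicalSpace.denseSeq O n).2
    have hd : ∀ x, 0 < infDist x A → ∀ ε > 0, ∃ n, dist x (p n) < ε := by
      intro x hx ε hε
      obtain ⟨n, hn⟩ := (TopologicalSpace.denseRange_denseSeq O).exists_dist_lt ⟨x, hx⟩ hε
      exact ⟨n, hn⟩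
    -- near points
    have hu : ∀ n, ∃ y : Y, dist (p n) (j y) ≤ 2 * infDist (p n) A := by
      intro n
      have h1 : infDist (p n) A < 2 * infDist (p n) A := by linarith [hp n]
      obtain ⟨a, ⟨y, rfl⟩, ha⟩ := (infDist_lt_iff hAne).1 h1
      exact ⟨y, ha.le⟩
    choose u hu using hu
    have hs : ∀ n, sc A p n = infDist (p n) A / 8 := fun n => rfl
    -- basic estimate
    have huu : ∀ n m (x y : M), 0 < om A p n x → 0 < om A p m y →
        dist (u n) (u m) ≤ 3 * infDist x A + 3 * infDist y A + dist x y := by
      intro n m x y hn hm
      have a1 := hj (u n) (u m)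
      have a2 : dist (j (u n)) (j (u m)) ≤ dist (j (u n)) (p n) + dist (p n) x + dist x y +
          dist y (p m) + dist (p m) (j (u m)) := by
        have b1 := dist_triangle (j (u n)) (p n) (j (u m))
        have b2 := dist_triangle (p n) x (j (u m))
        have b3 := dist_triangle x y (j (u m))
        have b4 := dist_triangle y (p m) (j (u m))
        linarith
      have a3 := hu n
      have a4 := hu m
      have a5 := om_le_self A p n x
      have a6 := om_le_self A p m y
      have a7 : infDist (p n) A ≤ infDist x A + dist (p n) x := infDist_le_infDist_add_dist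
      have a8 : infDist (p m) A ≤ infDist y A + dist (p m) y := infDist_le_infDist_add_dist
      rw [hs n] at a5
      rw [hs m] at a6
      rw [dist_comm (j (u n)) (p n), dist_comm (p n) x] at a2
      rw [dist_comm (p n) x] at a7
      rw [dist_comm (p m) y] at a8
      linarith
    let Good : ℕ → (ℕ → Y) → Y → Prop := fun k G y =>
      (∀ i < k, dist y (G i) ≤ 147 * dist (p k) (p i)) ∧
      (∀ n, 0 < om A p n (p k) → dist y (u n) ≤ 39 * infDist (p k) A - 108 * om A p n (p k))
    have hGood : ∃ G : ℕ → Y, ∀ k, Good k G (G k) := by
      apply exists_seq_strong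
      · intro k G G' y hGG' hg
        refine ⟨fun i hi => ?_, hg.2⟩
        rw [← hGG' i hi]
        exact hg.1 i hi
      · intro k G hG
        obtain ⟨N, hN⟩ := exists_bound A p hd (p k) (hp k)
        obtain ⟨m₀, hm₀⟩ := exists_core A p hd (p k) (hp k)
        let S₁ : Finset (Y × ℝ) := (Finset.range k).image (fun i => (G i, 147 * dist (p k) (p i)))
        let S₂ : Finset (Y × ℝ) := ((Finset.range (N + 1)).filter (fun n => 0 < om A p n (p k))).image
          (fun n => (u n, 39 * infDist (p k) A - 108 * om A p n (p k)))
        have hm₀pos : 0 < om A p m₀ (p k) := lt_of_lt_of_le (by have := hp k; positivity) hm₀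
        have hmem₂ : ∀ n, 0 < om A p n (p k) →
            (u n, 39 * infDist (p k) A - 108 * om A p n (p k)) ∈ S₂ := by
          intro n hn
          apply Finset.mem_image.2
          exact ⟨n, by simp [hn]; have := hN n hn; omega, rfl⟩
        -- radius of active constraints
        have hrad : ∀ n, 0 < om A p n (p k) →
            3 * infDist (p k) A ≤ 39 * infDist (p k) A - 108 * om A p n (p k) := by
          intro n hn
          have a5 := om_le_self A p n (p k)
          have a7 : infDist (p n) A ≤ infDist (p k) A + dist (p n) (p k) :=
            infDist_le_infDist_add_dist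
          rw [hs n] at a5
          rw [dist_comm (p n) (p k)] at a7
          linarith [@dist_nonneg _ _ (p k) (p n)]
        -- compatibility
        have h12 : ∀ i < k, ∀ n, 0 < om A p n (p k) →
            dist (G i) (u n) ≤ 147 * dist (p k) (p i) + (39 * infDist (p k) A - 108 * om A p n (p k)) := by
          intro i hi n hn
          have hlip := om_le A p n (p k) (p i)
          have hδ : infDist (p i) A ≤ infDist (p k) A + dist (p i) (p k) :=
            infDist_le_infDist_add_dist
          rw [dist_comm (p i) (p k)] at hδ
          have hdn : 0 ≤ dist (p k) (p i) := dist_nonneg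
          have hgi := (hG i hi).2
          by_cases hact : 0 < om A p n (p i)
          · have h1 := hgi n hact
            linarith
          · push Not at hact
            obtain ⟨m, hm⟩ := exists_core A p hd (p i) (hp i)
            have hmpos : 0 < om A p m (p i) := lt_of_lt_of_le (by have := hp i; positivity) hm
            have h1 := hgi m hmpos
            have h2 := huu m n (p i) (p k) hmpos hn
            have h3 := dist_triangle (G i) (u m) (u n)
            rw [dist_comm (p i) (p k)] at h2
            linarith
        have h22 : ∀ n, 0 < om A p n (p k) → ∀ m, 0 < om A p m (p k) →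
            dist (u n) (u m) ≤ (39 * infDist (p k) A - 108 * om A p n (p k)) +
              (39 * infDist (p k) A - 108 * om A p m (p k)) := by
          intro n hn m hm
          have h1 := huu n m (p k) (p k) hn hm
          rw [dist_self] at h1
          linarith [hrad n hn, hrad m hm]
        have h11 : ∀ i < k, ∀ i' < k, dist (G i) (G i') ≤ 147 * dist (p k) (p i) +
            147 * dist (p k) (p i') := by
          intro i hi i' hi'
          have ht := dist_triangle_left (p i) (p i') (p k)
          rcases lt_trichotomy i i' with h | h | h
          · have h1 := (hG i' hi').1 i h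
            rw [dist_comm (G i') (G i), dist_comm (p i') (p i)] at h1
            linarith
          · subst h
            rw [dist_self]
            positivity
          · have h1 := (hG i hi).1 i' h
            linarith
        obtain ⟨z, hz⟩ := hY (S₁ ∪ S₂) ⟨_, Finset.mem_union_right _ (hmem₂ m₀ hm₀pos)⟩
          (by
            intro q hq
            rcases Finset.mem_union.1 hq with hq | hq
            · obtain ⟨i, hi, rfl⟩ := Finset.mem_image.1 hq
              positivity
            · obtain ⟨n, hn, rfl⟩ := Finset.mem_image.1 hq
              have hn' := (Finset.mem_filter.1 hn).2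
              have h1 := hrad n hn'
              have h2 := (hp k).le
              simp only
              linarith)
          (by
            intro q hq q' hq'
            rcases Finset.mem_union.1 hq with hq | hq <;>
              rcases Finset.mem_union.1 hq' with hq' | hq'
            · obtain ⟨i, hi, rfl⟩ := Finset.mem_image.1 hq
              obtain ⟨i', hi', rfl⟩ := Finset.mem_image.1 hq'
              exact h11 i (Finset.mem_range.1 hi) i' (Finset.mem_range.1 hi')
            · obtain ⟨i, hi, rfl⟩ := Finset.mem_image.1 hq
              obtain ⟨n, hn, rfl⟩ := Finset.mem_image.1 hq'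
              exact h12 i (Finset.mem_range.1 hi) n (Finset.mem_filter.1 hn).2
            · obtain ⟨i, hi, rfl⟩ := Finset.mem_image.1 hq'
              obtain ⟨n, hn, rfl⟩ := Finset.mem_image.1 hq
              have := h12 i (Finset.mem_range.1 hi) n (Finset.mem_filter.1 hn).2
              simp only
              rw [dist_comm]
              linarith
            · obtain ⟨m, hm, rfl⟩ := Finset.mem_image.1 hq'
              obtain ⟨n, hn, rfl⟩ := Finset.mem_image.1 hq
              exact h22 n (Finset.mem_filter.1 hn).2 m (Finset.mem_filter.1 hm).2)
        refine ⟨z, fun i hi => ?_, fun n hn => ?_⟩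
        · exact hz (G i, 147 * dist (p k) (p i)) (Finset.mem_union_left _
            (Finset.mem_image.2 ⟨i, Finset.mem_range.2 hi, rfl⟩))
        · exact hz _ (Finset.mem_union_right _ (hmem₂ n hn))
    obtain ⟨G, hG⟩ := hGood
    -- assemble
    let e : Y ⊕ ℕ → M := Sum.elim j p
    let f : Y ⊕ ℕ → Y := Sum.elim id G
    have he : DenseRange e := by
      intro x
      by_cases hx : 0 < infDist x A
      · rw [Metric.mem_closure_iff]
        intro ε hε
        obtain ⟨n, hn⟩ := hd x hx ε hε
        exact ⟨p n, ⟨Sum.inr n, rfl⟩, hn⟩
      · have h0 : infDist x A = 0 := le_antisymm (not_lt.1 hx) infDist_nonneg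
        have h1 : x ∈ closure A := (Metric.mem_closure_iff_infDist_zero hAne).2 h0
        refine closure_mono ?_ h1
        rintro _ ⟨y, rfl⟩
        exact ⟨Sum.inl y, rfl⟩
    have hmix : ∀ k y, dist (G k) y ≤ 147 * dist (p k) (j y) := by
      intro k y
      obtain ⟨m, hm⟩ := exists_core A p hd (p k) (hp k)
      have hmpos : 0 < om A p m (p k) := lt_of_lt_of_le (by have := hp k; positivity) hm
      have h1 := (hG k).2 m hmpos
      have h2 := hj (u m) y
      have h3 := dist_triangle (G k) (u m) y
      have h4 : dist (j (u m)) (j y) ≤ dist (p m) (j (u m)) + dist (p k) (p m) + dist (p k) (j y) := by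
        have b1 := dist_triangle_left (j (u m)) (j y) (p m)
        have b2 := dist_triangle_left (p m) (j y) (p k)
        linarith
      have h5 := hu m
      have h6 := om_le_self A p m (p k)
      have h7 : infDist (p m) A ≤ infDist (p k) A + dist (p m) (p k) :=
        infDist_le_infDist_add_dist
      rw [dist_comm (p m) (p k)] at h7
      rw [hs m] at h6
      have h8 : infDist (p k) A ≤ dist (p k) (j y) := infDist_le_dist_of_mem (mem_range_self y)
      have h9 := hp k
      linarith
    obtain ⟨F, hF, hF'⟩ := exists_extend_of_dense e he f 147 (by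
      rintro (y | k) (y' | k')
      · have h1 := hj y y'
        have h2 : (0:ℝ) ≤ dist (j y) (j y') := dist_nonneg
        simp only [e, f, Sum.elim_inl, id]
        push_cast
        linarith
      · have h1 := hmix k' y
        simp only [e, f, Sum.elim_inl, Sum.elim_inr, id]
        push_cast
        rw [dist_comm y, dist_comm (j y)]
        exact h1
      · simp only [e, f, Sum.elim_inl, Sum.elim_inr, id]
        push_cast
        exact hmix k y'
      · simp only [e, f, Sum.elim_inr]
        push_cast
        rcases lt_trichotomy k k' with h | h | h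
        · have h1 := (hG k').1 k h
          rw [dist_comm (G k), dist_comm (p k)]
          exact h1
        · subst h
          simp
        · exact (hG k).1 k' h)
    exact ⟨F, hF, fun y => hF' (Sum.inl y)⟩

end Pool.Agent.Work.FreeIso
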