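import Pool.Agent.Work.FreeIso.Ext

/-!
# `c₀` and the Urysohn space have the finite ball intersection property
-/

set_option autoImplicit false

open Set Filter Topology

namespace Pool.Agent.Work.FreeIso

/-- the space `c₀` -/
abbrev c0 : Type := ZeroAtInftyContinuousMap ℕ ℝ

lemma c0_dist_le {f g : c0} {C : ℝ} (hC : 0 ≤ C) (h : ∀ n, dist (f n) (g n) ≤ C) :
    dist f g ≤ C := by
  rw [← ZeroAtInftyContinuousMap.dist_toBCF_eq_dist, BoundedContinuousFunction.dist_le hC]
  exact h

lemma c0_dist_coe_le (f g : c0) (n : ℕ) : dist (f n) (g n) ≤ dist f g := by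
  rw [← ZeroAtInftyContinuousMap.dist_toBCF_eq_dist]
  exact BoundedContinuousFunction.dist_coe_le_dist (f := f.toBCF) (g := g.toBCF) n

lemma c0_tendsto (f : c0) : Tendsto f atTop (𝓝 0) := by
  have h0 : Tendsto f (cocompact ℕ) (𝓝 0) := f.zero_at_infty'
  rwa [cocompact_eq_cofinite, Nat.cofinite_eq_atTop] at h0

/-- constructor for elements of `c₀` -/
noncomputable def c0mk (f : ℕ → ℝ) (h : Tendsto f atTop (𝓝 0)) : c0 where
  toFun := f
  continuous_toFun := continuous_of_discreteTopology
  zero_at_infty' := by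
    rw [cocompact_eq_cofinite, Nat.cofinite_eq_atTop]
    exact h

@[simp] lemma c0mk_apply (f : ℕ → ℝ) (h : Tendsto f atTop (𝓝 0)) (n : ℕ) : c0mk f h n = f n := rfl

lemma c0_ext {f g : c0} (h : ∀ n, f n = g n) : f = g := by
  ext n
  exact h n

theorem fbip_c0 : FBIP c0 := by
  classical
  intro s hs hnn hcomp
  by_cases hz : ∃ p ∈ s, p.2 = 0
  · obtain ⟨p, hp, hp0⟩ := hz
    refine ⟨p.1, fun q hq => ?_⟩
    have := hcomp p hp q hq
    rw [hp0, zero_add] at this
    exact this
  · have hpos : ∀ p ∈ s, 0 < p.2 := fun p hp => lt_of_le_of_ne (hnn p hp) (fun h => hz ⟨p, hp, h.symm⟩)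
    let L : ℕ → ℝ := fun n => s.sup' hs (fun p => p.1 n - p.2)
    let R : ℕ → ℝ := fun n => s.inf' hs (fun p => p.1 n + p.2)
    have hLR : ∀ n, L n ≤ R n := by
      intro n
      refine Finset.sup'_le _ _ (fun p hp => ?_)
      refine Finset.le_inf' _ _ (fun q hq => ?_)
      have h1 := hcomp p hp q hq
      have h2 := c0_dist_coe_le p.1 q.1 n
      rw [Real.dist_eq] at h2
      have h3 := le_abs_self (p.1 n - q.1 n)
      linarith
    let z : ℕ → ℝ := fun n => max (L n) (min 0 (R n))
    have hev : ∀ᶠ n in atTop, z n = 0 := by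
      have h1 : ∀ᶠ n in atTop, ∀ p ∈ s, |p.1 n| < p.2 := by
        rw [Filter.eventually_all_finset]
        intro p hp
        have h2 := (c0_tendsto p.1).abs
        rw [abs_zero] at h2
        exact h2.eventually (gt_mem_nhds (hpos p hp))
      filter_upwards [h1] with n hn
      have hL : L n ≤ 0 := by
        refine Finset.sup'_le _ _ (fun p hp => ?_)
        have := (abs_lt.1 (hn p hp)).2
        linarith
      have hR : 0 ≤ R n := by
        refine Finset.le_inf' _ _ (fun p hp => ?_)
        have := (abs_lt.1 (hn p hp)).1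
        linarith
      simp only [z]
      rw [min_eq_left hR, max_eq_right hL]
    have hzt : Tendsto z atTop (𝓝 0) := tendsto_const_nhds.congr' (by
      filter_upwards [hev] with n hn
      exact hn.symm)
    refine ⟨c0mk z hzt, fun p hp => ?_⟩
    refine c0_dist_le (hnn p hp) (fun n => ?_)
    have h1 : p.1 n - p.2 ≤ L n := Finset.le_sup' (f := fun p : c0 × ℝ => p.1 n - p.2) hp
    have h2 : R n ≤ p.1 n + p.2 := Finset.inf'_le (f := fun p : c0 × ℝ => p.1 n + p.2) hp
    have h3 := hLR n
    rw [c0mk_apply, Real.dist_eq, abs_le]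
    constructor
    · have : L n ≤ z n := le_max_left _ _
      linarith
    · have : z n ≤ R n := max_le h3 (min_le_right _ _)
      linarith

/-- the Urysohn space has the finite ball intersection property. -/
theorem fbip_urysohn (U : Type) [MetricSpace U]
    (huniv : ∀ (X : Type) [MetricSpace X] [TopologicalSpace.SeparableSpace X],
        ∃ f : X → U, Isometry f)
    (hhom : ∀ (s : Set U), s.Finite → ∀ g : s → U, Isometry g →
        ∃ h : U ≃ᵢ U, ∀ x : s, h (x : U) = g x) : FBIP U := by
  classical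
  intro s hs hnn hcomp
  let X : Type := {x : U × ℝ // x ∈ s} → ℝ
  obtain ⟨φ, hφ⟩ := huniv X
  let κ : U → X := fun c q => dist c q.1.1
  have hκ1 : ∀ c c', dist (κ c) (κ c') ≤ dist c c' := by
    intro c c'
    refine (dist_pi_le_iff dist_nonneg).2 (fun q => ?_)
    simp only [κ]
    rw [Real.dist_eq]
    exact abs_dist_sub_le c c' q.1.1
  have hκ2 : ∀ q : s, ∀ c', dist q.1.1 c' ≤ dist (κ q.1.1) (κ c') := by
    intro q c'
    have h1 := dist_le_pi_dist (κ q.1.1) (κ c') q
    simp only [κ] at h1
    rw [dist_self, Real.dist_eq, zero_sub, abs_neg, abs_of_nonneg dist_nonneg, dist_comm c'] at h1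
    exact h1
  let w : X := fun q => s.inf' hs (fun p => dist p.1 q.1.1 + p.2)
  have hw : ∀ p ∈ s, dist w (κ p.1) ≤ p.2 := by
    intro p hp
    refine (dist_pi_le_iff (hnn p hp)).2 (fun q => ?_)
    rw [Real.dist_eq, abs_le]
    constructor
    · have : dist p.1 q.1.1 - p.2 ≤ w q := by
        refine Finset.le_inf' _ _ (fun p' hp' => ?_)
        have h1 := hcomp p hp p' hp'
        have h2 := dist_triangle p.1 p'.1 q.1.1
        linarith
      simp only [κ]
      linarith
    · have : w q ≤ dist p.1 q.1.1 + p.2 :=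
        Finset.inf'_le (f := fun p : U × ℝ => dist p.1 q.1.1 + p.2) hp
      simp only [κ]
      linarith
  let T : Set U := range (fun q : s => φ (κ q.1.1))
  have hT : T.Finite := Set.finite_range _
  have hsel : ∀ t : T, ∃ q : s, φ (κ q.1.1) = t := fun t => t.2
  choose sel hsel using hsel
  obtain ⟨h, hh⟩ := hhom T hT (fun t => (sel t).1.1) (by
    refine Isometry.of_dist_eq (fun t t' => ?_)
    rw [Subtype.dist_eq, ← hsel t, ← hsel t', hφ.dist_eq]
    exact le_antisymm (hκ2 _ _) (hκ1 _ _))
  refine ⟨h (φ w), fun p hp => ?_⟩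
  let t : T := ⟨φ (κ p.1), ⟨⟨p, hp⟩, rfl⟩⟩
  have h1 := hh t
  have h2 : (sel t).1.1 = p.1 := by
    have h3 : φ (κ (sel t).1.1) = φ (κ p.1) := hsel t
    have h4 := hφ.injective h3
    have h5 := hκ2 (sel t) p.1
    rw [h4, dist_self] at h5
    exact dist_le_zero.1 h5
  change h (φ (κ p.1)) = (sel t).1.1 at h1
  rw [h2] at h1
  have e1 : dist (h (φ w)) p.1 = dist (h (φ w)) (h (φ (κ p.1))) :=
    congrArg (dist (h (φ w))) h1.symm
  have e2 : dist (h (φ w)) (h (φ (κ p.1))) = dist w (κ p.1) :=
    (h.dist_eq _ _).trans (hφ.dist_eq _ _)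
  exact (e1.trans e2).trans_le (hw p hp)

/-- `c₀` is separable. -/
theorem separable_c0 : TopologicalSpace.SeparableSpace c0 := by
  classical
  -- the range of finitely supported rational sequences
  let e : (ℕ →₀ ℚ) → c0 := fun f => c0mk (fun n => (f n : ℝ)) (by
    refine tendsto_const_nhds.congr' ?_
    filter_upwards [eventually_gt_atTop (f.support.sup id)] with n hn
    have : n ∉ f.support := fun h => by
      have := Finset.le_sup (f := id) h
      simp only [id] at this
      omega
    rw [Finsupp.notMem_support_iff.1 this]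
    simp)
  refine ⟨⟨range e, countable_range e, ?_⟩⟩
  intro f
  rw [Metric.mem_closure_iff]
  intro ε hε
  have h1 := (Metric.tendsto_atTop.1 (c0_tendsto f)) (ε / 2) (by positivity)
  obtain ⟨N, hN⟩ := h1
  have h2 : ∀ n, ∃ q : ℚ, dist (f n) (q : ℝ) < ε / 2 := by
    intro n
    obtain ⟨q, hq1, hq2⟩ := exists_rat_btwn (show f n - ε / 2 < f n by linarith)
    refine ⟨q, ?_⟩
    rw [Real.dist_eq, abs_lt]
    constructor <;> linarith
  choose q hq using h2
  let F : ℕ →₀ ℚ := Finsupp.onFinset (Finset.range N) (fun n => if n < N then q n else 0) (by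
    intro n hn
    by_contra h
    simp at h
    simp [h] at hn)
  refine ⟨e F, ⟨F, rfl⟩, ?_⟩
  refine lt_of_le_of_lt (c0_dist_le (C := ε / 2) (by positivity) (fun n => ?_)) (by linarith)
  simp only [e, c0mk_apply, F, Finsupp.onFinset_apply]
  by_cases hn : n < N
  · simp only [hn, if_true]
    exact (hq n).le
  · simp only [hn, if_false, Rat.cast_zero]
    exact (hN n (by omega)).le

end Pool.Agent.Work.FreeIso
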