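import Pool.Agent.Work.FreeIso.Aharoni

/-!
# Free spaces: lifting of Lipschitz maps, complemented subspaces
-/

set_option autoImplicit false

open Set Filter Topology

namespace Pool.Agent.Work.FreeIso

/-- `δ : M → E` realises `E` as the Lipschitz-free space over the pointed metric space `(M, o)`. -/
structure IsFree {M E : Type*} [MetricSpace M] [NormedAddCommGroup E] [NormedSpace ℝ E]
    (o : M) (δ : M → E) : Prop where
  zero : δ o = 0
  lip : LipschitzWith 1 δ
  dense : Dense ((Submodule.span ℝ (Set.range δ) : Submodule ℝ E) : Set E)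
  ext : ∀ (K : NNReal) (f : M → ℝ), LipschitzWith K f → f o = 0 →
    ∃ φ : E →L[ℝ] ℝ, ‖φ‖ ≤ (K : ℝ) ∧ ∀ x, φ (δ x) = f x

namespace IsFree

variable {M E : Type*} [MetricSpace M] [NormedAddCommGroup E] [NormedSpace ℝ E]
  {o : M} {δ : M → E} (H : IsFree o δ)
include H

theorem denseRange : DenseRange (Finsupp.linearCombination ℝ δ) := by
  have h := H.dense
  rw [← Finsupp.range_linearCombination] at h
  exact h

theorem hom_ext {Z : Type*} [NormedAddCommGroup Z] [NormedSpace ℝ Z] {φ ψ : E →L[ℝ] Z}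
    (h : ∀ x, φ (δ x) = ψ (δ x)) : φ = ψ := by
  have hcl : ∀ v ∈ (Submodule.span ℝ (Set.range δ) : Submodule ℝ E), φ v = ψ v := by
    intro v hv
    induction hv using Submodule.span_induction with
    | mem x hx => obtain ⟨y, rfl⟩ := hx; exact h y
    | zero => simp
    | add x y _ _ hx hy => simp [hx, hy]
    | smul a x _ hx => simp [hx]
  ext v
  have hv : v ∈ closure ((Submodule.span ℝ (Set.range δ) : Submodule ℝ E) : Set E) := by
    rw [H.dense.closure_eq]; trivial
  exact (Set.EqOn.closure (s := ((Submodule.span ℝ (Set.range δ) : Submodule ℝ E) : Set E))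
    (fun v hv => hcl v hv) φ.continuous ψ.continuous) hv

/-- Lifting of Lipschitz maps into Banach spaces. -/
theorem exists_lift {Z : Type*} [NormedAddCommGroup Z] [NormedSpace ℝ Z] [CompleteSpace Z]
    (G : M → Z) (K : NNReal) (hG : LipschitzWith K G) (h0 : G o = 0) :
    ∃ T : E →L[ℝ] Z, ‖T‖ ≤ K ∧ ∀ x, T (δ x) = G x := by
  let f : (M →₀ ℝ) →ₗ[ℝ] Z := Finsupp.linearCombination ℝ G
  let e : (M →₀ ℝ) →ₗ[ℝ] E := Finsupp.linearCombination ℝ δ
  have hnorm : ∀ a, ‖f a‖ ≤ K * ‖e a‖ := by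
    intro a
    obtain ⟨φ, hφ1, hφ2⟩ := exists_dual_vector'' ℝ (f a)
    have hφG : LipschitzWith K (fun x => φ (G x)) := by
      refine LipschitzWith.of_dist_le_mul (fun x y => ?_)
      rw [dist_eq_norm, ← map_sub]
      calc ‖φ (G x - G y)‖ ≤ ‖φ‖ * ‖G x - G y‖ := φ.le_opNorm _
        _ ≤ 1 * ‖G x - G y‖ := by gcongr
        _ = dist (G x) (G y) := by rw [one_mul, dist_eq_norm]
        _ ≤ K * dist x y := hG.dist_le_mul x y
    obtain ⟨ψ, hψ1, hψ2⟩ := H.ext K _ hφG (by rw [h0, map_zero])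
    have heq : φ (f a) = ψ (e a) := by
      simp only [f, e, Finsupp.linearCombination_apply, Finsupp.sum, map_sum, map_smul, hψ2]
    have h1 : ‖f a‖ = ψ (e a) := by
      rw [← heq, hφ2]
      rfl
    rw [h1]
    calc ψ (e a) ≤ ‖ψ (e a)‖ := le_abs_self _
      _ ≤ ‖ψ‖ * ‖e a‖ := ψ.le_opNorm _
      _ ≤ K * ‖e a‖ := by gcongr
  refine ⟨f.extendOfNorm e, LinearMap.opNorm_extendOfNorm_le H.denseRange K.2 hnorm, fun x => ?_⟩
  have h1 := LinearMap.extendOfNorm_eq (f := f) (e := e) H.denseRange ⟨K, hnorm⟩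
    (Finsupp.single x 1)
  simpa [e, f] using h1

end IsFree

/-- Lipschitz retracts give complemented subspaces. -/
theorem exists_complemented {M N E F : Type*} [MetricSpace M] [MetricSpace N]
    [NormedAddCommGroup E] [NormedSpace ℝ E] [CompleteSpace E]
    [NormedAddCommGroup F] [NormedSpace ℝ F] [CompleteSpace F]
    {o₁ : M} {δ₁ : M → E} (H₁ : IsFree o₁ δ₁) {o₂ : N} {δ₂ : N → F} (H₂ : IsFree o₂ δ₂)
    (i : M → N) (r : N → M) {K L : NNReal} (hi : LipschitzWith K i) (hr : LipschitzWith L r)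
    (hri : ∀ x, r (i x) = x) :
    ∃ (a : E →L[ℝ] F) (b : F →L[ℝ] E), ∀ v, b (a v) = v := by
  obtain ⟨a, -, ha⟩ := H₁.exists_lift (fun x => δ₂ (i x) - δ₂ (i o₁)) K (by
    refine LipschitzWith.of_dist_le_mul (fun x y => ?_)
    rw [dist_sub_right]
    exact (H₂.lip.dist_le_mul _ _).trans (by
      rw [NNReal.coe_one, one_mul]
      exact hi.dist_le_mul x y)) (sub_self _)
  obtain ⟨b, -, hb⟩ := H₂.exists_lift (fun x => δ₁ (r x) - δ₁ (r o₂)) L (by
    refine LipschitzWith.of_dist_le_mul (fun x y => ?_)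
    rw [dist_sub_right]
    exact (H₁.lip.dist_le_mul _ _).trans (by
      rw [NNReal.coe_one, one_mul]
      exact hr.dist_le_mul x y)) (sub_self _)
  refine ⟨a, b, fun v => ?_⟩
  have h : b.comp a = ContinuousLinearMap.id ℝ E := by
    apply H₁.hom_ext
    intro x
    simp only [ContinuousLinearMap.comp_apply, ContinuousLinearMap.id_apply]
    rw [ha, map_sub, hb, hb, hri, hri, H₁.zero]
    abel
  exact congrArg (fun T : E →L[ℝ] E => T v) h

end Pool.Agent.Work.FreeIso
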